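import Pool.Agent.Lib_helper43.PJ.W_FinB
import Pool.Agent.Lib_helper43.PJ.W_FormB
import Pool.Agent.Lib_helper43.PJ.W_DiagA
import Pool.Agent.Lib_helper43.PJ.W_DiagC

/-!
MP_f6fc0c_ag: over the field of algebraic numbers, there are pencils of quartic surfaces for which
the group `Gamma` is not finitely generated, and pencils for which it is zero.
-/

namespace Pool.Agent.Results.MP_f6fc0c_ag.PicardJumpGamma

open PicJump

theorem result :
    (∀ c₀ c₁ : AlgebraicClosure ℚ, c₀ ≠ c₁ → c₀ ^ 2 ≠ 4 → c₁ ^ 2 ≠ 4 →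
      Admissible (G0 c₀) (G1 c₁) ∧ ¬ (Gamma (G0 c₀) (G1 c₁)).FG) ∧
    (∀ a : Fin 4 → AlgebraicClosure ℚ, Function.Injective a →
      Admissible (Diag (fun _ => (1 : AlgebraicClosure ℚ))) (Diag a) ∧
        Gamma (Diag (fun _ => (1 : AlgebraicClosure ℚ))) (Diag a) = ⊥) :=
  ⟨fun c₀ c₁ h h0 h1 => ⟨admissible_G c₀ c₁ h h0 h1, gamma_not_fg c₀ c₁ h h0 h1⟩,
    fun a ha => ⟨admissible_diag a ha, gamma_diag a ha⟩⟩

end Pool.Agent.Results.MP_f6fc0c_ag.PicardJumpGamma
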